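import Mathlib

/-!
# The 33-point set for MP_3a82a8_co (S08190)

`X = AG(2,4)`, points `t = 4x+y` with `x, y ∈ F₄ = {0,1,w=2,w+1=3}` (addition = xor); the sixteen
non-vertical lines are `l = 4m+c : y = m x + c`.  The set `P ⊂ ℝ¹⁶` consists of the sixteen vectors
`4 e_j`, the sixteen vectors `2·1_l` and the all-one vector `1_X`; all have norm `4`.
-/

set_option autoImplicit false

namespace Pool.Agent.Helper1

/-- The incidence table of the sixteen lines (row `l`, bits `16 l + t`). -/
def lineTable : ℕ := 0x2418182481424281412882141482284112482184481284218888444422221111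

/-- Point `t = 4x+y` lies on the line `l = 4m+c`, i.e. `y = m x + c` in `F₄`. -/
def inc (l t : Fin 16) : Bool := lineTable.testBit (16 * l.val + t.val)

/-- Index type of the 33 points: singles, lines, the whole set. -/
abbrev I : Type := Fin 16 ⊕ Fin 16 ⊕ Unit

/-- The (integer) coordinates of the 33 points. -/
def vecZ : I → Fin 16 → ℤ
  | .inl j, x => if x = j then 4 else 0
  | .inr (.inl l), x => if inc l x then 2 else 0
  | .inr (.inr _), _ => 1

/-- Squared distances of the 33 points. -/
def sqd (p q : I) : ℤ := ∑ x, (vecZ p x - vecZ q x) ^ 2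

/-- `y` is a congruent copy of the 33-point set. -/
def IsCopy {n : ℕ} (y : I → EuclideanSpace ℝ (Fin n)) : Prop :=
  ∀ p q, dist (y p) (y q) ^ 2 = (sqd p q : ℝ)

end Pool.Agent.Helper1
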