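import Mathlib
import Pool.Agent.Helper1.DRDef

/-!
# The finite certificate (integer tables) for the 33-point set
-/

set_option autoImplicit false

open Finset

namespace Pool.Agent.Helper1

/-- sixteen sets of size 10 (complements of the translates of `{N(x)+Tr(xy)=1}`) -/
def tab1 : ℕ := 0xf365f39afc95fc6a3f563fa9cf59cfa665f39af395fc6afc563fa93f59cfa6cf
/-- the 24 sets `{x₁x₂ + a.x + b.y + c = 1}`, `b ≠ 0` -/
def tab2 : ℕ := 0xccc3cc3cc3ccc333aaa5aa5aa5aaa555999699699699966669996966669666695aaa5a5555a5555a3ccc3c3333c3333c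
/-- the 24 vertical pairs -/
def tab4 : ℕ := 0xc000a00060009000500030000c000a00060009000500030000c000a00060009000500030000c000a0006000900050003
/-- the sixteen translates of the 6-set `{N(x)+Tr(xy)=1}` -/
def tab5 : ℕ := 0xc9a0c65036a0395c0a9c05630a630599a0c650c6a039503a9c056c0a6305930

/-- membership of point `x` in the `u`-th set of a table -/
def tmem (T u : ℕ) (x : Fin 16) : Bool := T.testBit (16 * u + x.val)

def r1 (u x : Fin 16) : ℤ := if tmem tab1 u x then 1 else -1
def r2 (u : Fin 24) (x : Fin 16) : ℤ := if tmem tab2 u x then 1 else -1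
def r3 (u x : Fin 16) : ℤ := if x = u then 2 else 0
def r4 (u : Fin 24) (x : Fin 16) : ℤ := if tmem tab4 u x then 2 else 0
def r5 (u x : Fin 16) : ℤ := if tmem tab5 u x then 1 else -1

def z1 (u : Fin 16) (p : I) : ℤ := ∑ x, r1 u x * vecZ p x + 4
def z2 (u : Fin 24) (p : I) : ℤ := ∑ x, r2 u x * vecZ p x + 4
def z3 (u : Fin 16) (p : I) : ℤ := ∑ x, r3 u x * vecZ p x + 0
def z4 (u : Fin 24) (p : I) : ℤ := ∑ x, r4 u x * vecZ p x + 0
def z5 (u : Fin 16) (p : I) : ℤ := ∑ x, r5 u x * vecZ p x + 4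

/-- The three kinds of points: single `0`, line `1`, whole set `2`. -/
def kind : I → Fin 3
  | .inl _ => 0
  | .inr (.inl _) => 1
  | .inr (.inr _) => 2

/-- nonzero letter of stage 1 / 2 / 3 / 4 / 5 (in eighths), by kind -/
def c1 : Fin 3 → ℤ := ![8, 8, 8]
def c2 : Fin 3 → ℤ := ![8, 8, 4]
def c3 : Fin 3 → ℤ := ![8, 4, 2]
def c4 : Fin 3 → ℤ := ![8, 4, 4]
def c5 : Fin 3 → ℤ := ![8, 8, 8]

/-- number of nonzero letters of stage 1 / 2 / 3 / 4 / 5, by kind -/
def k1 : Fin 3 → ℕ := ![10, 12, 16]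
def k2 : Fin 3 → ℕ := ![12, 12, 24]
def k3 : Fin 3 → ℕ := ![1, 4, 16]
def k4 : Fin 3 → ℕ := ![3, 12, 24]
def k5 : Fin 3 → ℕ := ![6, 4, 0]

theorem z1_val : ∀ p u, z1 u p = 0 ∨ z1 u p = c1 (kind p) := by decide +kernel
theorem z2_val : ∀ p u, z2 u p = 0 ∨ z2 u p = c2 (kind p) := by decide +kernel
theorem z3_val : ∀ p u, z3 u p = 0 ∨ z3 u p = c3 (kind p) := by decide +kernel
theorem z4_val : ∀ p u, z4 u p = 0 ∨ z4 u p = c4 (kind p) := by decide +kernel
theorem z5_val : ∀ p u, z5 u p = 0 ∨ z5 u p = c5 (kind p) := by decide +kernel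

theorem z1_count : ∀ p, (List.finRange 16).countP (fun u => decide (z1 u p ≠ 0)) = k1 (kind p) := by
  decide +kernel
theorem z2_count : ∀ p, (List.finRange 24).countP (fun u => decide (z2 u p ≠ 0)) = k2 (kind p) := by
  decide +kernel
theorem z3_count : ∀ p, (List.finRange 16).countP (fun u => decide (z3 u p ≠ 0)) = k3 (kind p) := by
  decide +kernel
theorem z4_count : ∀ p, (List.finRange 24).countP (fun u => decide (z4 u p ≠ 0)) = k4 (kind p) := by
  decide +kernel
theorem z5_count : ∀ p, (List.finRange 16).countP (fun u => decide (z5 u p ≠ 0)) = k5 (kind p) := by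
  decide +kernel

theorem gram_table : ∀ x y : Fin 16,
    3 * ∑ u, r1 u x * r1 u y + ∑ u, r2 u x * r2 u y + 2 * ∑ u, r4 u x * r4 u y
      + 3 * ∑ u, r5 u x * r5 u y = if x = y then 144 else 0 := by
  decide +kernel

/-- expansion of a quadratic form -/
theorem quad {n : ℕ} (r : Fin n → Fin 16 → ℤ) (d : Fin 16 → ℤ) :
    ∑ u, (∑ x, r u x * d x) ^ 2 = ∑ x, ∑ y, (∑ u, r u x * r u y) * (d x * d y) := by
  calc ∑ u, (∑ x, r u x * d x) ^ 2 = ∑ u, ∑ x, ∑ y, (r u x * r u y) * (d x * d y) := by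
        apply Finset.sum_congr rfl
        intro u _
        rw [sq, Finset.sum_mul_sum]
        apply Finset.sum_congr rfl
        intro x _
        apply Finset.sum_congr rfl
        intro y _
        ring
    _ = ∑ x, ∑ u, ∑ y, (r u x * r u y) * (d x * d y) := Finset.sum_comm
    _ = ∑ x, ∑ y, ∑ u, (r u x * r u y) * (d x * d y) := by
        apply Finset.sum_congr rfl
        intro x _
        exact Finset.sum_comm
    _ = ∑ x, ∑ y, (∑ u, r u x * r u y) * (d x * d y) := by
        apply Finset.sum_congr rfl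
        intro x _
        apply Finset.sum_congr rfl
        intro y _
        rw [Finset.sum_mul]

/-- the Gram identity of stages 1, 2, 4, 5 -/
theorem gram_id (p q : I) :
    3 * ∑ u, (z1 u p - z1 u q) ^ 2 + ∑ u, (z2 u p - z2 u q) ^ 2 + 2 * ∑ u, (z4 u p - z4 u q) ^ 2
      + 3 * ∑ u, (z5 u p - z5 u q) ^ 2 = 144 * sqd p q := by
  set d : Fin 16 → ℤ := fun x => vecZ p x - vecZ q x with hd
  have e : ∀ (n : ℕ) (r : Fin n → Fin 16 → ℤ) (k : ℤ),
      ∑ u, ((∑ x, r u x * vecZ p x + k) - (∑ x, r u x * vecZ q x + k)) ^ 2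
        = ∑ x, ∑ y, (∑ u, r u x * r u y) * (d x * d y) := by
    intro n r k
    rw [← quad]
    apply Finset.sum_congr rfl
    intro u _
    congr 1
    simp only [hd, mul_sub, Finset.sum_sub_distrib]
    ring
  have e1 := e 16 r1 4
  have e2 := e 24 r2 4
  have e4 := e 24 r4 0
  have e5 := e 16 r5 4
  unfold z1 z2 z4 z5
  rw [e1, e2, e4, e5]
  simp only [Finset.mul_sum, ← Finset.sum_add_distrib]
  have h : ∀ x y : Fin 16, 3 * ((∑ u, r1 u x * r1 u y) * (d x * d y))
      + (∑ u, r2 u x * r2 u y) * (d x * d y) + 2 * ((∑ u, r4 u x * r4 u y) * (d x * d y))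
      + 3 * ((∑ u, r5 u x * r5 u y) * (d x * d y)) = (if x = y then 144 else 0) * (d x * d y) := by
    intro x y
    rw [← gram_table x y]; ring
  simp only [h]
  unfold sqd
  rw [Finset.mul_sum]
  apply Finset.sum_congr rfl
  intro x _
  simp only [ite_mul, zero_mul, Finset.sum_ite_eq, Finset.mem_univ, if_true]
  simp only [hd]; ring

/-- the Gram identity of stage 3 -/
theorem gram_id3 (p q : I) : ∑ u, (z3 u p - z3 u q) ^ 2 = 4 * sqd p q := by
  unfold sqd
  rw [Finset.mul_sum]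
  apply Finset.sum_congr rfl
  intro u _
  have h : ∀ p, z3 u p = 2 * vecZ p u := by
    intro p
    simp [z3, r3]
  rw [h, h]; ring

end Pool.Agent.Helper1
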