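import Mathlib

/-!
# The finite Ramsey theorem for `K`-subsets

Short proof through an ultrafilter on `ℕ` (iterated limits give a homogeneous set, and a limit over
the colourings gives the finite version).
-/

set_option autoImplicit false

open Filter

namespace Pool.Agent.Helper1

theorem ultra_lim (U : Ultrafilter ℕ) {r : ℕ} (F : ℕ → Fin r) : ∃ i, ∀ᶠ y in (U : Filter ℕ), F y = i := by
  obtain ⟨a, ha⟩ := Ultrafilter.eq_pure_of_finite (U.map F)
  refine ⟨a, ?_⟩
  have h1 : ({a} : Set (Fin r)) ∈ U.map F := by rw [ha]; exact Set.mem_singleton a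
  exact h1

/-- The (finite) Ramsey theorem for `K`-subsets and `r` colours. -/
theorem hyper_ramsey (K L r : ℕ) :
    ∃ n : ℕ, ∀ c : Finset ℕ → Fin r, ∃ H : Finset ℕ, H ⊆ Finset.range n ∧ H.card = L ∧
      ∃ i, ∀ s ⊆ H, s.card = K → c s = i := by
  classical
  by_contra hcon
  push Not at hcon
  choose col hcol using hcon
  set U : Ultrafilter ℕ := hyperfilter ℕ with hU
  -- the limit colouring
  have hlim0 : ∀ s : Finset ℕ, ∃ i, ∀ᶠ n in (U : Filter ℕ), col n s = i := fun s => ultra_lim U _
  choose C0 hC0 using hlim0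
  have hstep : ∀ F : Finset ℕ → Fin r, ∃ G : Finset ℕ → Fin r, ∀ s,
      ∀ᶠ y in (U : Filter ℕ), F (insert y s) = G s := by
    intro F
    have : ∀ s : Finset ℕ, ∃ i, ∀ᶠ y in (U : Filter ℕ), F (insert y s) = i :=
      fun s => ultra_lim U _
    choose G hG using this
    exact ⟨G, hG⟩
  choose D hD using hstep
  let C : ℕ → Finset ℕ → Fin r := fun k => Nat.rec C0 (fun _ F => D F) k
  have hCs : ∀ k s, ∀ᶠ y in (U : Filter ℕ), C k (insert y s) = C (k + 1) s := fun k s => hD (C k) s
  have hcof : ∀ H : Finset ℕ, ∀ᶠ y in (U : Filter ℕ), y ∉ H := by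
    intro H
    have h1 : ((H : Set ℕ))ᶜ ∈ (U : Filter ℕ) := by
      rw [hU]
      exact mem_hyperfilter_of_finite_compl (by rw [compl_compl]; exact H.finite_toSet)
    exact h1
  -- homogeneous sets of every size
  have key : ∀ L : ℕ, ∃ H : Finset ℕ, H.card = L ∧
      ∀ s ⊆ H, s.card ≤ K → C (K - s.card) s = C K ∅ := by
    intro L
    induction L with
    | zero =>
      refine ⟨∅, rfl, ?_⟩
      intro s hs _
      rw [Finset.subset_empty.mp hs]; simp
    | succ L ih =>
      obtain ⟨H, hHc, hH⟩ := ih
      have hev : ∀ᶠ y in (U : Filter ℕ), y ∉ H ∧ ∀ s ∈ H.powerset, s.card < K →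
          C (K - s.card - 1) (insert y s) = C (K - s.card - 1 + 1) s := by
        refine (hcof H).and ?_
        rw [Filter.eventually_all_finset]
        intro s _
        by_cases hs : s.card < K
        · filter_upwards [hCs (K - s.card - 1) s] with y hy _ using hy
        · exact Filter.Eventually.of_forall fun y h => absurd h hs
      obtain ⟨y, hy, hyH⟩ := hev.exists
      refine ⟨insert y H, by rw [Finset.card_insert_of_notMem hy, hHc], ?_⟩
      intro s hs hsK
      by_cases hys : y ∈ s
      · have hse : s.erase y ⊆ H := by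
          intro z hz
          rcases Finset.mem_insert.mp (hs (Finset.mem_of_mem_erase hz)) with h | h
          · exact absurd h (Finset.ne_of_mem_erase hz)
          · exact h
        have hcard : (s.erase y).card + 1 = s.card := Finset.card_erase_add_one hys
        have h1 := hyH (s.erase y) (Finset.mem_powerset.mpr hse) (by omega)
        rw [Finset.insert_erase hys] at h1
        have h2 := hH (s.erase y) hse (by omega)
        have e1 : K - (s.erase y).card - 1 = K - s.card := by omega
        have e2 : K - s.card + 1 = K - (s.erase y).card := by omega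
        rw [e1, e2] at h1
        rw [h1, h2]
      · have hsH : s ⊆ H := by
          intro z hz
          rcases Finset.mem_insert.mp (hs hz) with h | h
          · exact absurd (h ▸ hz) hys
          · exact h
        exact hH s hsH hsK
  obtain ⟨H, hHc, hH⟩ := key L
  have hev : ∀ᶠ n in (U : Filter ℕ), (∀ s ∈ H.powerset, col n s = C0 s) ∧
      n ∉ Finset.range (H.sup id + 1) := by
    refine Filter.Eventually.and ?_ (hcof _)
    rw [Filter.eventually_all_finset]
    intro s _
    exact hC0 s
  obtain ⟨n, hn, hnH⟩ := hev.exists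
  have hHn : H ⊆ Finset.range n := by
    intro z hz
    have h1 : z ≤ H.sup id := Finset.le_sup (f := id) hz
    rw [Finset.mem_range] at hnH ⊢
    omega
  obtain ⟨s, hsH, hsK, hne⟩ := hcol n H hHn hHc (C K ∅)
  apply hne
  rw [hn s (Finset.mem_powerset.mpr hsH)]
  have := hH s hsH hsK.le
  rw [hsK, Nat.sub_self] at this
  exact this

/-- Ramsey's theorem with an enumeration of the homogeneous set. -/
theorem ramsey_enum (K L r : ℕ) :
    ∃ n : ℕ, ∀ c : Finset ℕ → Fin r, ∃ e : ℕ → ℕ, StrictMono e ∧ (∀ t < L, e t < n) ∧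
      ∃ i, ∀ s ⊆ Finset.range L, s.card = K → c (s.image e) = i := by
  classical
  obtain ⟨n, hn⟩ := hyper_ramsey K L r
  refine ⟨n, fun c => ?_⟩
  obtain ⟨H, hHn, hHc, i, hi⟩ := hn c
  let e : ℕ → ℕ := fun t => if h : t < L then H.orderEmbOfFin hHc ⟨t, h⟩ else n + t
  have he : ∀ t (h : t < L), e t = H.orderEmbOfFin hHc ⟨t, h⟩ := fun t h => by simp [e, h]
  have hmem : ∀ t, t < L → e t ∈ H := fun t h => by
    rw [he t h]; exact Finset.orderEmbOfFin_mem H hHc _
  refine ⟨e, ?_, ?_, i, ?_⟩
  · intro a b hab
    by_cases hb : b < L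
    · rw [he a (hab.trans hb), he b hb]
      exact (H.orderEmbOfFin hHc).strictMono (Fin.mk_lt_mk.mpr hab)
    · by_cases ha : a < L
      · have h1 := Finset.mem_range.mp (hHn (hmem a ha))
        have h2 : e b = n + b := by simp [e, hb]
        omega
      · have h1 : e a = n + a := by simp [e, ha]
        have h2 : e b = n + b := by simp [e, hb]
        omega
  · intro t ht
    exact Finset.mem_range.mp (hHn (hmem t ht))
  · intro s hs hsK
    apply hi
    · intro z hz
      obtain ⟨t, ht, rfl⟩ := Finset.mem_image.mp hz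
      exact hmem t (Finset.mem_range.mp (hs ht))
    · rw [Finset.card_image_of_injOn, hsK]
      intro a ha b hb hab
      have ha' := Finset.mem_range.mp (hs ha)
      have hb' := Finset.mem_range.mp (hs hb)
      rw [he a ha', he b hb'] at hab
      have := (H.orderEmbOfFin hHc).injective hab
      exact Fin.mk.inj_iff.mp this

end Pool.Agent.Helper1
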