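import Mathlib
import Pool.Agent.Helper1.HyperRamsey

/-!
# Ordered spreads (Matousek–Rödl style) and words
-/

set_option autoImplicit false

open Finset

namespace Pool.Agent.Helper1

/-- coordinate function of the ordered spread of `a` with support `s`. -/
noncomputable def spreadFn (a : ℕ → ℝ) (s : Finset ℕ) (m : ℕ) : ℝ :=
  if m ∈ s then a (s.filter (· < m)).card else 0

/-- the ordered spread of `a` with support `s`, as a point of `ℝⁿ`. -/
noncomputable def spread (a : ℕ → ℝ) (n : ℕ) (s : Finset ℕ) : EuclideanSpace ℝ (Fin n) :=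
  WithLp.toLp 2 (fun m : Fin n => spreadFn a s m)

theorem sum_rank (f : ℕ → ℝ) (s : Finset ℕ) :
    ∑ m ∈ s, f (s.filter (· < m)).card = ∑ k ∈ range s.card, f k := by
  induction s using Finset.induction_on_max with
  | empty => simp
  | insert a s ha ih =>
    have hnot : a ∉ s := fun h => lt_irrefl _ (ha a h)
    rw [Finset.sum_insert hnot, Finset.card_insert_of_notMem hnot, Finset.sum_range_succ, add_comm,
      ← ih]
    congr 1
    · apply Finset.sum_congr rfl
      intro m hm
      congr 2
      ext z
      simp only [Finset.mem_filter, Finset.mem_insert]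
      constructor
      · rintro ⟨h | h, hz⟩
        · have := ha m hm
          omega
        · exact ⟨h, hz⟩
      · rintro ⟨h, hz⟩
        exact ⟨Or.inr h, hz⟩
    · congr 2
      ext z
      simp only [Finset.mem_filter, Finset.mem_insert]
      constructor
      · rintro ⟨h | h, hz⟩
        · omega
        · exact h
      · intro h
        exact ⟨Or.inr h, ha z h⟩

theorem dist_spread_sq (a : ℕ → ℝ) (n : ℕ) (s s' : Finset ℕ) :
    dist (spread a n s) (spread a n s') ^ 2
      = ∑ m ∈ range n, (spreadFn a s m - spreadFn a s' m) ^ 2 := by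
  rw [EuclideanSpace.dist_eq, Real.sq_sqrt (Finset.sum_nonneg fun i _ => sq_nonneg _)]
  rw [← Fin.sum_univ_eq_sum_range (fun m => (spreadFn a s m - spreadFn a s' m) ^ 2) n]
  apply Finset.sum_congr rfl
  intro i _
  rw [Real.dist_eq, sq_abs]
  rfl

theorem sum_spreadFn_sq (a : ℕ → ℝ) {n : ℕ} {s : Finset ℕ} (hs : s ⊆ range n) :
    ∑ m ∈ range n, spreadFn a s m ^ 2 = ∑ k ∈ range s.card, a k ^ 2 := by
  rw [← sum_rank (fun k => a k ^ 2) s]
  symm
  apply Finset.sum_subset_zero_on_sdiff hs
  · intro x hx
    have hx' : x ∉ s := (Finset.mem_sdiff.mp hx).2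
    simp [spreadFn, hx']
  · intro x hx
    simp [spreadFn, hx]

theorem spreadFn_nonneg {a : ℕ → ℝ} (ha : ∀ k, 0 ≤ a k) (s : Finset ℕ) (m : ℕ) :
    0 ≤ spreadFn a s m := by
  unfold spreadFn; split_ifs
  · exact ha _
  · exact le_rfl

theorem dist_spread_le {a : ℕ → ℝ} (ha : ∀ k, 0 ≤ a k) {n K : ℕ} {s s' : Finset ℕ}
    (hs : s ⊆ range n) (hs' : s' ⊆ range n) (hK : s.card = K) (hK' : s'.card = K) :
    dist (spread a n s) (spread a n s') ^ 2 ≤ 2 * ∑ k ∈ range K, a k ^ 2 := by
  rw [dist_spread_sq]
  calc ∑ m ∈ range n, (spreadFn a s m - spreadFn a s' m) ^ 2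
      ≤ ∑ m ∈ range n, (spreadFn a s m ^ 2 + spreadFn a s' m ^ 2) := by
        apply Finset.sum_le_sum
        intro m _
        nlinarith [mul_nonneg (spreadFn_nonneg ha s m) (spreadFn_nonneg ha s' m)]
    _ = 2 * ∑ k ∈ range K, a k ^ 2 := by
        rw [Finset.sum_add_distrib, sum_spreadFn_sq a hs, sum_spreadFn_sq a hs', hK, hK']; ring

/-- Ramsey theorem for spreads, in terms of words: `w p` is a word of length `L` whose nonzero
letters are `a 0, a 1, …, a (K-1)` in this order. -/
theorem spread_ramsey {ι : Type*} (K L r : ℕ) (a : ℕ → ℝ) (ha : ∀ k, 0 ≤ a k) (w : ι → ℕ → ℝ)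
    (hread : ∀ p, ∀ t < L, w p t ≠ 0 →
      w p t = a ((range t).filter (fun t' => w p t' ≠ 0)).card)
    (hK : ∀ p, ((range L).filter (fun t => w p t ≠ 0)).card = K) :
    ∃ (n : ℕ) (R : Finset (EuclideanSpace ℝ (Fin n))),
      (∀ c : EuclideanSpace ℝ (Fin n) → Fin r, ∃ y : ι → EuclideanSpace ℝ (Fin n),
        (∀ p, y p ∈ R) ∧ (∀ p q, dist (y p) (y q) ^ 2 = ∑ t ∈ range L, (w p t - w q t) ^ 2) ∧
        ∃ i, ∀ p, c (y p) = i) ∧
      ∀ x ∈ R, ∀ y ∈ R, dist x y ^ 2 ≤ 2 * ∑ k ∈ range K, a k ^ 2 := by
  classical
  obtain ⟨n, hn⟩ := ramsey_enum K L r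
  refine ⟨n, ((range n).powersetCard K).image (spread a n), ?_, ?_⟩
  · intro c
    obtain ⟨e, he, hen, i, hi⟩ := hn (fun s => c (spread a n s))
    have hinj : Function.Injective e := he.injective
    let S : ι → Finset ℕ := fun p => (range L).filter (fun t => w p t ≠ 0)
    -- the coordinates of the copy
    have hval : ∀ p, ∀ t < L, spreadFn a ((S p).image e) (e t) = w p t := by
      intro p t ht
      have hmem : e t ∈ (S p).image e ↔ w p t ≠ 0 := by
        rw [Finset.mem_image]
        constructor
        · rintro ⟨t', ht', h⟩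
          rw [hinj h] at ht'
          exact (Finset.mem_filter.mp ht').2
        · intro h
          exact ⟨t, Finset.mem_filter.mpr ⟨Finset.mem_range.mpr ht, h⟩, rfl⟩
      unfold spreadFn
      by_cases hw : w p t = 0
      · rw [if_neg (by rw [hmem]; exact fun h => h hw), hw]
      · rw [if_pos (hmem.mpr hw), hread p t ht hw]
        congr 1
        have h1 : ((S p).image e).filter (· < e t) = ((range t).filter (fun t' => w p t' ≠ 0)).image e := by
          ext z
          simp only [Finset.mem_filter, Finset.mem_image, Finset.mem_range, S]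
          constructor
          · rintro ⟨⟨t', ⟨_, ht'w⟩, rfl⟩, hlt⟩
            exact ⟨t', ⟨he.lt_iff_lt.mp hlt, ht'w⟩, rfl⟩
          · rintro ⟨t', ⟨htt, ht'w⟩, rfl⟩
            exact ⟨⟨t', ⟨htt.trans ht, ht'w⟩, rfl⟩, he htt⟩
        rw [h1, Finset.card_image_of_injective _ hinj]
    have hzero : ∀ p, ∀ m, m ∉ (range L).image e → spreadFn a ((S p).image e) m = 0 := by
      intro p m hm
      unfold spreadFn
      rw [if_neg]
      intro h
      apply hm
      obtain ⟨t, ht, rfl⟩ := Finset.mem_image.mp h
      exact Finset.mem_image_of_mem _ (Finset.mem_filter.mp ht).1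
    refine ⟨fun p => spread a n ((S p).image e), ?_, ?_, i, ?_⟩
    · intro p
      apply Finset.mem_image_of_mem
      rw [Finset.mem_powersetCard]
      refine ⟨?_, ?_⟩
      · intro z hz
        obtain ⟨t, ht, rfl⟩ := Finset.mem_image.mp hz
        exact Finset.mem_range.mpr (hen t (Finset.mem_range.mp (Finset.mem_filter.mp ht).1))
      · rw [Finset.card_image_of_injective _ hinj]
        exact hK p
    · intro p q
      rw [dist_spread_sq]
      have hsub : (range L).image e ⊆ range n := by
        intro z hz
        obtain ⟨t, ht, rfl⟩ := Finset.mem_image.mp hz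
        exact Finset.mem_range.mpr (hen t (Finset.mem_range.mp ht))
      rw [← Finset.sum_subset hsub]
      · rw [Finset.sum_image (fun x _ y _ h => hinj h)]
        apply Finset.sum_congr rfl
        intro t ht
        rw [hval p t (Finset.mem_range.mp ht), hval q t (Finset.mem_range.mp ht)]
      · intro m _ hm
        rw [hzero p m hm, hzero q m hm]; ring
    · intro p
      exact hi (S p) (Finset.filter_subset _ _) (hK p)
  · intro x hx y hy
    obtain ⟨s, hs, rfl⟩ := Finset.mem_image.mp hx
    obtain ⟨s', hs', rfl⟩ := Finset.mem_image.mp hy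
    rw [Finset.mem_powersetCard] at hs hs'
    exact dist_spread_le ha hs.1 hs'.1 hs.2 hs'.2

/-! ### Words given by lists -/

theorem card_filter_getD (l : List ℝ) : ∀ t ≤ l.length,
    ((range t).filter (fun t' => l.getD t' 0 ≠ 0)).card = (l.take t).countP (fun x => decide (x ≠ 0)) := by
  intro t
  induction t with
  | zero => intro _; simp
  | succ t ih =>
    intro ht
    have ht' : t < l.length := ht
    rw [Finset.range_add_one, Finset.filter_insert, List.take_add_one, List.countP_append,
      ← ih ht'.le]
    have h1 : l[t]? = some (l[t]) := List.getElem?_eq_getElem ht'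
    have h2 : l.getD t 0 = l[t] := by simp [List.getD, h1]
    rw [h1]
    by_cases h : l.getD t 0 = 0
    · rw [if_neg (by simpa using h)]
      rw [h2] at h
      simp [h]
    · rw [if_pos h, Finset.card_insert_of_notMem (by simp)]
      rw [h2] at h
      simp [h]

theorem getD_read (l : List ℝ) : ∀ t < l.length, l.getD t 0 ≠ 0 →
    l.getD t 0 = (l.filter (fun x => decide (x ≠ 0))).getD
      ((l.take t).countP (fun x => decide (x ≠ 0))) 0 := by
  induction l with
  | nil => intro t ht; simp at ht
  | cons x l ih =>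
    intro t ht h
    cases t with
    | zero =>
      have hx : x ≠ 0 := by simpa using h
      simp [hx]
    | succ t =>
      have h' : l.getD t 0 ≠ 0 := by simpa using h
      have ht' : t < l.length := by simpa using ht
      have h1 := ih t ht' h'
      have e1 : (x :: l).getD (t + 1) 0 = l.getD t 0 := by simp
      rw [e1, h1, List.take_succ_cons, List.countP_cons]
      by_cases hx : x = 0
      · simp [hx]
      · simp [hx]

/-- squared distance of words (equal lengths). -/
def dl (l l' : List ℝ) : ℝ := (List.zipWith (fun a b => (a - b) ^ 2) l l').sum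

theorem dl_eq_sum (l l' : List ℝ) (h : l.length = l'.length) :
    ∑ t ∈ range l.length, (l.getD t 0 - l'.getD t 0) ^ 2 = dl l l' := by
  induction l generalizing l' with
  | nil => cases l' with
    | nil => simp [dl]
    | cons y l' => simp at h
  | cons x l ih => cases l' with
    | nil => simp at h
    | cons y l' =>
      have h' : l.length = l'.length := by simpa using h
      have := ih l' h'
      rw [List.length_cons, Finset.sum_range_succ']
      simp only [List.getD_cons_succ, List.getD_cons_zero]
      rw [this]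
      simp [dl, add_comm]

theorem dl_append (l₁ l₂ l₁' l₂' : List ℝ) (h : l₁.length = l₁'.length) :
    dl (l₁ ++ l₂) (l₁' ++ l₂') = dl l₁ l₁' + dl l₂ l₂' := by
  unfold dl
  rw [List.zipWith_append h, List.sum_append]

theorem dl_replicate (m : ℕ) (x y : ℝ) :
    dl (List.replicate m x) (List.replicate m y) = m * (x - y) ^ 2 := by
  unfold dl
  rw [List.zipWith_replicate]
  simp

/-- words made of constant blocks. -/
def word {ι : Type*} (B : List (ℕ × (ι → ℝ))) (p : ι) : List ℝ :=
  B.flatMap (fun b => List.replicate b.1 (b.2 p))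

theorem word_append {ι : Type*} (B C : List (ℕ × (ι → ℝ))) (p : ι) :
    word (B ++ C) p = word B p ++ word C p := by
  simp [word]

theorem word_length {ι : Type*} (B : List (ℕ × (ι → ℝ))) (p : ι) :
    (word B p).length = (B.map Prod.fst).sum := by
  induction B with
  | nil => simp [word]
  | cons b B ih =>
    have : word (b :: B) p = List.replicate b.1 (b.2 p) ++ word B p := by simp [word]
    rw [this, List.length_append, ih]; simp

theorem dl_word {ι : Type*} (B : List (ℕ × (ι → ℝ))) (p q : ι) :
    dl (word B p) (word B q) = (B.map (fun b => (b.1 : ℝ) * (b.2 p - b.2 q) ^ 2)).sum := by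
  induction B with
  | nil => simp [word, dl]
  | cons b B ih =>
    have h1 : ∀ p, word (b :: B) p = List.replicate b.1 (b.2 p) ++ word B p := by simp [word]
    rw [h1, h1, dl_append _ _ _ _ (by simp), dl_replicate, ih]
    simp

/-- Ramsey theorem for spreads, block-word form. -/
theorem word_ramsey {ι : Type*} (r : ℕ) (A : List ℝ) (hA : ∀ x ∈ A, 0 ≤ x)
    (B : List (ℕ × (ι → ℝ)))
    (hB : ∀ p, (word B p).filter (fun x => decide (x ≠ 0)) = A) :
    ∃ (n : ℕ) (R : Finset (EuclideanSpace ℝ (Fin n))),
      (∀ c : EuclideanSpace ℝ (Fin n) → Fin r, ∃ y : ι → EuclideanSpace ℝ (Fin n),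
        (∀ p, y p ∈ R) ∧
        (∀ p q, dist (y p) (y q) ^ 2 = (B.map (fun b => (b.1 : ℝ) * (b.2 p - b.2 q) ^ 2)).sum) ∧
        ∃ i, ∀ p, c (y p) = i) ∧
      ∀ x ∈ R, ∀ y ∈ R, dist x y ^ 2 ≤ 2 * (A.map (fun x => x ^ 2)).sum := by
  have hsum : (A.map (fun x => x ^ 2)).sum = ∑ k ∈ range A.length, (A.getD k 0) ^ 2 := by
    clear hA hB
    induction A with
    | nil => simp
    | cons x A ih =>
      rw [List.length_cons, Finset.sum_range_succ', List.map_cons, List.sum_cons, ih]
      simp [add_comm]
  have hnn : ∀ k, 0 ≤ A.getD k 0 := by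
    intro k
    by_cases hk : k < A.length
    · rw [List.getD_eq_getElem _ _ hk]
      exact hA _ (List.getElem_mem hk)
    · rw [List.getD_eq_default _ _ (by omega)]
  obtain ⟨n, R, h1, h2⟩ := spread_ramsey (ι := ι) A.length (B.map Prod.fst).sum r (fun k => A.getD k 0) hnn
    (fun p t => (word B p).getD t 0)
    (by
      intro p t ht h
      have ht' : t < (word B p).length := by rw [word_length]; exact ht
      have := getD_read (word B p) t ht' h
      rw [hB p, ← card_filter_getD _ t ht'.le] at this
      exact this)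
    (by
      intro p
      have h3 := card_filter_getD (word B p) (word B p).length le_rfl
      rw [List.take_length, List.countP_eq_length_filter, hB p, word_length] at h3
      exact h3)
  refine ⟨n, R, ?_, ?_⟩
  · intro c
    obtain ⟨y, hy1, hy2, hy3⟩ := h1 c
    refine ⟨y, hy1, ?_, hy3⟩
    intro p q
    rw [hy2 p q, ← dl_word, ← dl_eq_sum _ _ (by rw [word_length, word_length]), word_length]
  · rw [hsum]
    exact h2

end Pool.Agent.Helper1
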