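import Mathlib
import Pool.Agent.Helper1.DRDef
import Pool.Agent.Helper1.Cert
import Pool.Agent.Helper1.Spread

/-!
# The 33-point set is almost diameter-Ramsey
-/

set_option autoImplicit false

open Finset

namespace Pool.Agent.Helper1

/-- a stage: one block of length `m` for every row of the table `z`. -/
noncomputable def stage {n : ℕ} (m : ℕ) (h : ℝ) (z : Fin n → I → ℤ) : List (ℕ × (I → ℝ)) :=
  (List.finRange n).map (fun u => (m, fun p => h * ((z u p : ℤ) : ℝ) / 8))

theorem filter_stage {n : ℕ} (m : ℕ) {h : ℝ} (hh : h ≠ 0) (z : Fin n → I → ℤ) (p : I) {c : ℤ}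
    (hc : c ≠ 0) (hz : ∀ u, z u p = 0 ∨ z u p = c) {k : ℕ}
    (hk : (List.finRange n).countP (fun u => decide (z u p ≠ 0)) = k) :
    (word (stage m h z) p).filter (fun x => decide (x ≠ 0))
      = List.replicate (m * k) (h * (c : ℝ) / 8) := by
  subst hk
  unfold stage
  generalize List.finRange n = l
  induction l with
  | nil => simp [word]
  | cons u l ih =>
    have h1 : word ((u :: l).map (fun u => ((m, fun p => h * ((z u p : ℤ) : ℝ) / 8) : ℕ × (I → ℝ)))) p
        = List.replicate m (h * ((z u p : ℤ) : ℝ) / 8)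
          ++ word (l.map (fun u => ((m, fun p => h * ((z u p : ℤ) : ℝ) / 8) : ℕ × (I → ℝ)))) p := by
      simp [word]
    rw [h1, List.filter_append, ih, List.filter_replicate, List.countP_cons]
    rcases hz u with h0 | h0
    · simp [h0]
    · have hc' : (c : ℝ) ≠ 0 := by exact_mod_cast hc
      have hne : h * (c : ℝ) / 8 ≠ 0 := by positivity
      rw [h0]
      simp only [ne_eq, hne, not_false_eq_true, decide_true, if_true, hc]
      rw [List.replicate_append_replicate]
      congr 1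
      ring

theorem sum_stage {n : ℕ} (m : ℕ) (h : ℝ) (z : Fin n → I → ℤ) (p q : I) :
    ((stage m h z).map (fun b => (b.1 : ℝ) * (b.2 p - b.2 q) ^ 2)).sum
      = m * h ^ 2 * ((∑ u, (z u p - z u q) ^ 2 : ℤ) : ℝ) / 64 := by
  unfold stage
  rw [List.map_map]
  rw [← Fin.sum_univ_def]
  push_cast
  rw [Finset.mul_sum, Finset.sum_div]
  apply Finset.sum_congr rfl
  intro u _
  simp only [Function.comp]
  ring

/-- the bulk stages -/
noncomputable def bulk (N : ℕ) : List (ℕ × (I → ℝ)) :=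
  (List.range N).flatMap (fun i => stage (6 * 4 ^ i) ((1 / 2 : ℝ) ^ i) z3)

/-- all blocks -/
noncomputable def blocks (N : ℕ) : List (ℕ × (I → ℝ)) :=
  stage 3 1 z1 ++ (stage 1 1 z2 ++ (bulk N ++
    (stage (2 * 4 ^ N) ((1 / 2 : ℝ) ^ N) z4 ++ stage (12 * 4 ^ N) ((1 / 2 : ℝ) ^ (N + 1)) z5)))

/-- bulk part of the spread word -/
noncomputable def Bf (N : ℕ) : List ℝ :=
  (List.range N).flatMap (fun i => List.replicate (6 * 4 ^ i) ((1 / 2 : ℝ) ^ i))

/-- the spread word -/
noncomputable def wordA (N : ℕ) : List ℝ :=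
  List.replicate 42 1 ++ (Bf (N + 1) ++ List.replicate (72 * 4 ^ N) ((1 / 2 : ℝ) ^ (N + 1)))

theorem Bf_succ (N : ℕ) : Bf (N + 1) = Bf N ++ List.replicate (6 * 4 ^ N) ((1 / 2 : ℝ) ^ N) := by
  unfold Bf
  rw [List.range_succ, List.flatMap_append]
  simp

theorem Bf_shift (N : ℕ) : Bf (N + 1) = List.replicate 6 1 ++
    (List.range N).flatMap (fun i => List.replicate (6 * 4 ^ (i + 1)) ((1 / 2 : ℝ) ^ (i + 1))) := by
  unfold Bf
  rw [List.range_succ_eq_map, List.flatMap_cons, List.flatMap_map]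
  simp

theorem Bf_shift2 (N : ℕ) : Bf (N + 2) = List.replicate 6 1 ++ (List.replicate 24 (1 / 2) ++
    (List.range N).flatMap (fun i => List.replicate (6 * 4 ^ (i + 2)) ((1 / 2 : ℝ) ^ (i + 2)))) := by
  rw [Bf_shift, List.range_succ_eq_map, List.flatMap_cons, List.flatMap_map]
  simp

theorem filter_bulk (N : ℕ) (p : I) {c : ℤ} (hc : c ≠ 0) (hz : ∀ u, z3 u p = 0 ∨ z3 u p = c) {k : ℕ}
    (hk : (List.finRange 16).countP (fun u => decide (z3 u p ≠ 0)) = k) :
    (word (bulk N) p).filter (fun x => decide (x ≠ 0))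
      = (List.range N).flatMap (fun i => List.replicate (6 * 4 ^ i * k) ((1 / 2 : ℝ) ^ i * (c : ℝ) / 8)) := by
  unfold bulk
  induction N with
  | zero => simp [word]
  | succ N ih =>
    rw [List.range_succ, List.flatMap_append, List.flatMap_append, word_append, List.filter_append, ih]
    congr 1
    simp only [List.flatMap_cons, List.flatMap_nil, List.append_nil]
    exact filter_stage _ (by positivity) z3 p hc hz hk

theorem read_blocks (N : ℕ) (p : I) :
    (word (blocks N) p).filter (fun x => decide (x ≠ 0)) = wordA N := by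
  have hh1 : (1 : ℝ) ≠ 0 := one_ne_zero
  have hhN : ((1 / 2 : ℝ) ^ N) ≠ 0 := by positivity
  have hhN1 : ((1 / 2 : ℝ) ^ (N + 1)) ≠ 0 := by positivity
  have n1 : ∀ k : Fin 3, c1 k ≠ 0 := by decide
  have n2 : ∀ k : Fin 3, c2 k ≠ 0 := by decide
  have n3 : ∀ k : Fin 3, c3 k ≠ 0 := by decide
  have n4 : ∀ k : Fin 3, c4 k ≠ 0 := by decide
  have n5 : ∀ k : Fin 3, c5 k ≠ 0 := by decide
  unfold blocks
  rw [word_append, word_append, word_append, word_append, List.filter_append, List.filter_append,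
    List.filter_append, List.filter_append,
    filter_stage 3 hh1 z1 p (n1 _) (z1_val p) (z1_count p),
    filter_stage 1 hh1 z2 p (n2 _) (z2_val p) (z2_count p),
    filter_bulk N p (n3 _) (z3_val p) (z3_count p),
    filter_stage (2 * 4 ^ N) hhN z4 p (n4 _) (z4_val p) (z4_count p),
    filter_stage (12 * 4 ^ N) hhN1 z5 p (n5 _) (z5_val p) (z5_count p)]
  generalize kind p = κ
  have key : ∀ (a b : ℕ) (x : ℝ) (l : List ℝ), List.replicate a x ++ (List.replicate b x ++ l)
      = List.replicate (a + b) x ++ l := by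
    intro a b x l
    rw [← List.append_assoc, List.replicate_append_replicate]
  fin_cases κ
  · -- singles
    simp only [Fin.zero_eta, Fin.isValue, c1, c2, c3, c4, c5, k1, k2, k3, k4, k5,
      Matrix.cons_val_zero]
    unfold wordA
    rw [Bf_succ]
    unfold Bf
    have e1 : (1 : ℝ) * ((8 : ℤ) : ℝ) / 8 = 1 := by norm_num
    have e2 : ∀ x : ℝ, x * ((8 : ℤ) : ℝ) / 8 = x := by intro x; push_cast; ring
    simp only [e2]
    rw [key, List.append_assoc]
    congr 1
    congr 1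
    · simp
    · congr 1
      · congr 1; ring
      · congr 1; ring
  · -- lines
    simp only [Fin.mk_one, Fin.isValue, c1, c2, c3, c4, c5, k1, k2, k3, k4, k5,
      Matrix.cons_val_one, Matrix.cons_val_zero]
    unfold wordA
    rw [Bf_shift]
    have e2 : ∀ x : ℝ, x * ((8 : ℤ) : ℝ) / 8 = x := by intro x; push_cast; ring
    have e3 : ∀ x : ℝ, x * ((4 : ℤ) : ℝ) / 8 = x * (1 / 2) := by intro x; push_cast; ring
    simp only [e2, e3, ← pow_succ]
    rw [key, List.append_assoc, key]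
    congr 1
    congr 1
    · apply List.flatMap_congr
      intro i _
      congr 1
      ring
    · rw [List.replicate_append_replicate]
      congr 1; ring
  · -- whole set
    simp only [Fin.reduceFinMk, Fin.isValue, c1, c2, c3, c4, c5, k1, k2, k3, k4, k5,
      Matrix.cons_val]
    unfold wordA
    have e2 : ∀ x : ℝ, x * ((8 : ℤ) : ℝ) / 8 = x := by intro x; push_cast; ring
    have e3 : ∀ x : ℝ, x * ((4 : ℤ) : ℝ) / 8 = x * (1 / 2) := by intro x; push_cast; ring
    have e4 : ∀ i : ℕ, (1 / 2 : ℝ) ^ i * ((2 : ℤ) : ℝ) / 8 = (1 / 2 : ℝ) ^ (i + 2) := by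
      intro i; push_cast; ring
    have e5 : List.replicate (72 * 4 ^ N) ((1 / 2 : ℝ) ^ (N + 1))
        = List.replicate (6 * 4 ^ (N + 1)) ((1 / 2 : ℝ) ^ (N + 1))
          ++ List.replicate (48 * 4 ^ N) ((1 / 2 : ℝ) ^ (N + 1)) := by
      rw [List.replicate_append_replicate]; congr 1; ring
    rw [e5, ← List.append_assoc (Bf (N + 1)), ← Bf_succ, Bf_shift2]
    simp only [e2, e3, e4, ← pow_succ]
    have e6 : ∀ l : List ℝ, List.replicate 42 (1 : ℝ) ++ (List.replicate 6 1 ++ l)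
        = List.replicate (3 * 16) 1 ++ l := by
      intro l; rw [key]
    rw [List.append_assoc, List.append_assoc, e6]
    congr 1
    congr 1
    · congr 1; norm_num
    · congr 1
      · apply List.flatMap_congr
        intro i _
        congr 1
        ring
      · simp only [mul_zero, List.replicate_zero, List.append_nil]
        congr 1; ring

theorem sum_bulk (N : ℕ) (p q : I) :
    ((bulk N).map (fun b => (b.1 : ℝ) * (b.2 p - b.2 q) ^ 2)).sum
      = N * (24 * (sqd p q : ℝ) / 64) := by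
  unfold bulk
  induction N with
  | zero => simp
  | succ N ih =>
    rw [List.range_succ, List.flatMap_append, List.map_append, List.sum_append, ih]
    simp only [List.flatMap_cons, List.flatMap_nil, List.append_nil]
    rw [sum_stage, gram_id3]
    have : ((6 * 4 ^ N : ℕ) : ℝ) * ((1 / 2 : ℝ) ^ N) ^ 2 = 6 := by
      push_cast
      rw [← pow_mul, mul_comm N 2, pow_mul, mul_assoc, ← mul_pow]
      norm_num
    rw [this]
    push_cast
    ring

theorem sum_blocks (N : ℕ) (p q : I) :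
    ((blocks N).map (fun b => (b.1 : ℝ) * (b.2 p - b.2 q) ^ 2)).sum
      = (3 * (N + 6) / 8) * (sqd p q : ℝ) := by
  unfold blocks
  simp only [List.map_append, List.sum_append]
  rw [sum_stage, sum_stage, sum_bulk, sum_stage, sum_stage]
  have h4 : ((2 * 4 ^ N : ℕ) : ℝ) * ((1 / 2 : ℝ) ^ N) ^ 2 = 2 := by
    push_cast
    rw [← pow_mul, mul_comm N 2, pow_mul, mul_assoc, ← mul_pow]
    norm_num
  have h5 : ((12 * 4 ^ N : ℕ) : ℝ) * ((1 / 2 : ℝ) ^ (N + 1)) ^ 2 = 3 := by
    push_cast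
    rw [pow_succ (1 / 2 : ℝ) N, mul_pow, ← pow_mul, mul_comm N 2, pow_mul]
    have : (4 : ℝ) ^ N * ((1 / 2 : ℝ) ^ 2) ^ N = 1 := by
      rw [← mul_pow]; norm_num
    linear_combination 3 * this
  rw [h4, h5]
  have h := gram_id p q
  have h' : (3 : ℝ) * ((∑ u, (z1 u p - z1 u q) ^ 2 : ℤ) : ℝ) + ((∑ u, (z2 u p - z2 u q) ^ 2 : ℤ) : ℝ)
      + 2 * ((∑ u, (z4 u p - z4 u q) ^ 2 : ℤ) : ℝ) + 3 * ((∑ u, (z5 u p - z5 u q) ^ 2 : ℤ) : ℝ)
      = 144 * (sqd p q : ℝ) := by
    exact_mod_cast h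
  push_cast at h' ⊢
  linear_combination h' / 64

theorem sum_Bf (N : ℕ) : ((Bf N).map (fun x => x ^ 2)).sum = 6 * (N : ℝ) := by
  induction N with
  | zero => simp [Bf]
  | succ N ih =>
    rw [Bf_succ, List.map_append, List.sum_append, ih, List.map_replicate, List.sum_replicate]
    have : ((6 * 4 ^ N : ℕ) : ℝ) * ((1 / 2 : ℝ) ^ N) ^ 2 = 6 := by
      push_cast
      rw [← pow_mul, mul_comm N 2, pow_mul, mul_assoc, ← mul_pow]
      norm_num
    rw [nsmul_eq_mul, this]
    push_cast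
    ring

theorem sum_wordA (N : ℕ) : ((wordA N).map (fun x => x ^ 2)).sum = 6 * ((N : ℝ) + 11) := by
  unfold wordA
  rw [List.map_append, List.sum_append, List.map_append, List.sum_append, sum_Bf,
    List.map_replicate, List.sum_replicate, List.map_replicate, List.sum_replicate]
  have h5 : ((72 * 4 ^ N : ℕ) : ℝ) * ((1 / 2 : ℝ) ^ (N + 1)) ^ 2 = 18 := by
    push_cast
    rw [pow_succ (1 / 2 : ℝ) N, mul_pow, ← pow_mul, mul_comm N 2, pow_mul]
    have : (4 : ℝ) ^ N * ((1 / 2 : ℝ) ^ 2) ^ N = 1 := by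
      rw [← mul_pow]; norm_num
    linear_combination 18 * this
  rw [nsmul_eq_mul, nsmul_eq_mul, h5]
  push_cast
  ring

theorem wordA_nonneg (N : ℕ) : ∀ x ∈ wordA N, 0 ≤ x := by
  intro x hx
  unfold wordA Bf at hx
  simp only [List.mem_append, List.mem_flatMap, List.mem_replicate] at hx
  rcases hx with ⟨_, rfl⟩ | ⟨i, _, _, rfl⟩ | ⟨_, rfl⟩
  · exact zero_le_one
  · positivity
  · positivity

/-- The 33-point set is almost diameter-Ramsey. -/
theorem almost_dr (r : ℕ) (ε : ℝ) (hε : 0 < ε) :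
    ∃ (n : ℕ) (R : Finset (EuclideanSpace ℝ (Fin n))),
      (∀ c : EuclideanSpace ℝ (Fin n) → Fin r, ∃ y : I → EuclideanSpace ℝ (Fin n),
        (∀ p, y p ∈ R) ∧ IsCopy y ∧ ∃ i, ∀ p, c (y p) = i) ∧
      ∀ x ∈ R, ∀ y ∈ R, dist x y ^ 2 ≤ 32 + ε := by
  classical
  obtain ⟨N, hN⟩ := exists_nat_gt (160 / ε)
  obtain ⟨n, R, h1, h2⟩ := word_ramsey r (wordA N) (wordA_nonneg N) (blocks N) (read_blocks N)
  have hN0 : (0 : ℝ) < (N : ℝ) + 6 := by positivity
  -- the scaling factor
  set s : ℝ := Real.sqrt (8 / (3 * ((N : ℝ) + 6))) with hs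
  have hs2 : s ^ 2 = 8 / (3 * ((N : ℝ) + 6)) := Real.sq_sqrt (by positivity)
  have hs0 : 0 ≤ s := Real.sqrt_nonneg _
  refine ⟨n, R.image (fun x => s • x), ?_, ?_⟩
  · intro c
    obtain ⟨y, hy1, hy2, i, hy3⟩ := h1 (fun x => c (s • x))
    refine ⟨fun p => s • y p, fun p => Finset.mem_image_of_mem _ (hy1 p), ?_, i, hy3⟩
    intro p q
    simp only
    rw [dist_smul₀, mul_pow, hy2 p q, sum_blocks, Real.norm_eq_abs, sq_abs, hs2]
    field_simp
  · intro x hx y hy
    obtain ⟨x', hx', rfl⟩ := Finset.mem_image.mp hx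
    obtain ⟨y', hy', rfl⟩ := Finset.mem_image.mp hy
    rw [dist_smul₀, mul_pow, Real.norm_eq_abs, sq_abs, hs2]
    have h3 := h2 x' hx' y' hy'
    rw [sum_wordA] at h3
    have h4 : 8 / (3 * ((N : ℝ) + 6)) * dist x' y' ^ 2
        ≤ 8 / (3 * ((N : ℝ) + 6)) * (2 * (6 * ((N : ℝ) + 11))) :=
      mul_le_mul_of_nonneg_left h3 (by positivity)
    refine h4.trans ?_
    have h5 : 8 / (3 * ((N : ℝ) + 6)) * (2 * (6 * ((N : ℝ) + 11))) = 32 + 160 / ((N : ℝ) + 6) := by
      field_simp
      ring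
    rw [h5]
    have h6 : 160 / ((N : ℝ) + 6) ≤ ε := by
      rw [div_le_iff₀ hN0]
      rw [div_lt_iff₀ hε] at hN
      nlinarith
    linarith

end Pool.Agent.Helper1
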